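import Pool.Agent.H958.RL.Stm
import Pool.Graph.R_seed8.W657.RD.PBas

/-!
Project RL (helper958), job UP: the upper bound.
-/

set_option autoImplicit false

namespace Pool.Agent.H396.RL.Up

open Finset
open scoped Classical
open Pool.Agent.W830.RD (Om gle Pr Rlz)
open Pool.Agent.H958.RO (Rev dimG)
open Pool.Agent.H958.RL

/-- the tail bound -/
theorem tail {n r m : ℕ} {c : ℝ} (hn : 0 < n) (hc : 0 < c) (hr : 1 ≤ r)
    (hm : Real.exp (c + 1) * r ≤ m) :
    (r.factorial : ℝ) * (1 + r * (c / n)) ^ n / (m : ℝ) ^ r ≤ Real.exp (-r) := by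
  have hn0 : (0 : ℝ) < n := by exact_mod_cast hn
  have hr0 : (0 : ℝ) < r := by exact_mod_cast hr
  have hm0 : (0 : ℝ) < m := lt_of_lt_of_le (by positivity) hm
  rw [div_le_iff₀ (pow_pos hm0 r)]
  have h1 : (r.factorial : ℝ) ≤ (r : ℝ) ^ r := by exact_mod_cast Nat.factorial_le_pow r
  have h2 : (1 + r * (c / n)) ^ n ≤ Real.exp (r * c) := by
    have h3 : (1 + r * (c / n)) ≤ Real.exp (r * (c / n)) := by
      have := Real.add_one_le_exp (r * (c / n))
      linarith
    calc (1 + r * (c / n)) ^ n ≤ (Real.exp (r * (c / n))) ^ n :=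
          pow_le_pow_left₀ (by positivity) h3 n
      _ = Real.exp (n * (r * (c / n))) := (Real.exp_nat_mul _ _).symm
      _ = Real.exp (r * c) := by
          congr 1
          field_simp
  have h4 : Real.exp (r * c + r) * (r : ℝ) ^ r ≤ (m : ℝ) ^ r := by
    have h5 : (Real.exp (c + 1) * r) ^ r ≤ (m : ℝ) ^ r := pow_le_pow_left₀ (by positivity) hm r
    rw [mul_pow, ← Real.exp_nat_mul] at h5
    have h6 : (r : ℝ) * (c + 1) = r * c + r := by ring
    rw [h6] at h5
    exact h5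
  calc (r.factorial : ℝ) * (1 + r * (c / n)) ^ n ≤ (r : ℝ) ^ r * Real.exp (r * c) :=
        mul_le_mul h1 h2 (by positivity) (by positivity)
    _ = Real.exp (-r) * (Real.exp (r * c + r) * (r : ℝ) ^ r) := by
        have h7 : Real.exp (-r) * Real.exp (r * c + r) = Real.exp (r * c) := by
          rw [← Real.exp_add]
          congr 1
          ring
        rw [← mul_assoc, h7, mul_comm]
    _ ≤ Real.exp (-r) * (m : ℝ) ^ r := mul_le_mul_of_nonneg_left h4 (Real.exp_pos _).le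

/-- the numerical bound -/
theorem num {L c : ℝ} {r K k : ℕ} (hL : 1 ≤ L) (hc : 1 ≤ c) (hr : (r : ℝ) ≤ 3 * L + 1)
    (hK : (K : ℝ) ≤ Real.exp (c + 1) * r) (hk : (k : ℝ) ≤ ((K : ℝ) + 1) * (2 * L) + 1) :
    (k : ℝ) ≤ 100 * Real.exp c * L ^ 2 := by
  have he : Real.exp 1 < 2.7182818286 := Real.exp_one_lt_d9
  have hec : 1 ≤ Real.exp c := Real.one_le_exp (by linarith)
  have h1 : Real.exp (c + 1) ≤ 3 * Real.exp c := by
    rw [Real.exp_add, mul_comm]
    exact mul_le_mul_of_nonneg_right (by linarith) (by positivity)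
  have h2 : (K : ℝ) ≤ 12 * Real.exp c * L := by
    calc (K : ℝ) ≤ Real.exp (c + 1) * r := hK
      _ ≤ (3 * Real.exp c) * (4 * L) :=
          mul_le_mul h1 (by linarith) (Nat.cast_nonneg r) (by positivity)
      _ = 12 * Real.exp c * L := by ring
  have h3 : 1 ≤ Real.exp c * L := by nlinarith
  have h4 : (K : ℝ) + 1 ≤ 13 * (Real.exp c * L) := by linarith
  have h5 : 1 ≤ Real.exp c * L ^ 2 := by nlinarith
  have h6 : ((K : ℝ) + 1) * (2 * L) ≤ 13 * (Real.exp c * L) * (2 * L) :=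
    mul_le_mul_of_nonneg_right h4 (by linarith)
  nlinarith

theorem main (h1 : S_UTAIL) (h2 : S_UGREEDY) : S_UP := by
  intro η' hη'
  obtain ⟨N1, hN1⟩ := exists_nat_ge (1 / η')
  refine ⟨max N1 1, fun n hn c hc hcL => ?_⟩
  have hnN : N1 ≤ n := (le_max_left _ _).trans hn
  have hn1 : 1 ≤ n := (le_max_right _ _).trans hn
  have hn0 : (0 : ℝ) < n := by exact_mod_cast hn1
  have hc0 : 0 < c := by linarith
  obtain ⟨L, hLdef⟩ : ∃ L : ℝ, L = Real.log n := ⟨_, rfl⟩
  rw [← hLdef] at hcL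
  have hL1 : 1 ≤ L := hc.trans hcL
  have hexpL : Real.exp L = n := by rw [hLdef, Real.exp_log hn0]
  have hcn : c < n := by
    have := Real.add_one_le_exp L
    rw [hexpL] at this
    linarith
  have hp : 0 < c / n := div_pos hc0 hn0
  have hp1 : c / n < 1 := (div_lt_one hn0).2 hcn
  obtain ⟨_, _, hmono, _, _, hunion⟩ := Pool.Agent.W657.RD.PBas.main (c / n) n hp hp1
  obtain ⟨r, hrdef⟩ : ∃ r : ℕ, r = ⌈3 * L⌉₊ := ⟨_, rfl⟩
  have hr3 : 3 * L ≤ r := by rw [hrdef]; exact Nat.le_ceil _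
  have hr4 : (r : ℝ) ≤ 3 * L + 1 := by
    rw [hrdef]
    exact (Nat.ceil_lt_add_one (by linarith)).le
  have hr1 : 1 ≤ r := by
    have : (0 : ℝ) < r := by linarith
    exact_mod_cast this
  obtain ⟨K, hKdef⟩ : ∃ K : ℕ, K = ⌊Real.exp (c + 1) * r⌋₊ := ⟨_, rfl⟩
  have hK1 : (K : ℝ) ≤ Real.exp (c + 1) * r := by
    rw [hKdef]
    exact Nat.floor_le (by positivity)
  have hK2 : Real.exp (c + 1) * r ≤ ((K + 1 : ℕ) : ℝ) := by
    rw [hKdef]
    push_cast
    exact (Nat.lt_floor_add_one _).le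
  obtain ⟨k, hkdef⟩ : ∃ k : ℕ, k = ⌊((K : ℝ) + 1) * (2 * L)⌋₊ + 1 := ⟨_, rfl⟩
  have hk1 : (k : ℝ) ≤ ((K : ℝ) + 1) * (2 * L) + 1 := by
    rw [hkdef]
    push_cast
    have := Nat.floor_le (show 0 ≤ ((K : ℝ) + 1) * (2 * L) by positivity)
    linarith
  have hk2 : ((K : ℝ) + 1) * (2 * L) < k := by
    rw [hkdef]
    push_cast
    exact Nat.lt_floor_add_one _
  have hk3 : 1 ≤ k := by omega
  have hbound := num hL1 hc hr4 hK1 hk1
  -- the deterministic part
  have hdet : ∀ E, E ⊆ Om n → 100 * Real.exp c * (Real.log n) ^ 2 < (dimG E : ℝ) →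
      ∃ x ∈ (univ : Finset (Fin n)), K + 1 ≤ (univ.filter (fun u => gle E x u)).card := by
    intro E hE hdim
    by_contra hcon
    have hall : ∀ x, (univ.filter (fun u => gle E x u)).card ≤ K := by
      intro x
      by_contra hx
      exact hcon ⟨x, mem_univ x, by omega⟩
    rw [← hLdef] at hdim
    have hrev := h2 n K k E hE hall (by rw [← hLdef]; exact hk2)
    have hrev' : Rev (gle E) (fun x y => ¬ gle E x y ∧ ¬ gle E y x) k := by
      obtain ⟨f, hf1, hf2⟩ := hrev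
      exact ⟨f, hf1, fun x y hxy => hf2 x y hxy.1⟩
    have hrlz : Rlz (gle E) k := Pool.Agent.H958.RO.fin_main n k E hE hk3 hrev'
    have hle : dimG E ≤ k := Nat.sInf_le hrlz
    have hle' : (dimG E : ℝ) ≤ k := by exact_mod_cast hle
    exact absurd (hdim.trans_le (hle'.trans hbound)) (lt_irrefl _)
  refine (hmono _ (fun E => ∃ x ∈ (univ : Finset (Fin n)),
    K + 1 ≤ (univ.filter (fun u => gle E x u)).card) hdet).trans ?_
  refine (hunion (Fin n) univ (fun x E => K + 1 ≤ (univ.filter (fun u => gle E x u)).card)).trans ?_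
  have hterm : ∀ x ∈ (univ : Finset (Fin n)), Pr (c / n) n
      (fun E => K + 1 ≤ (univ.filter (fun u => gle E x u)).card) ≤ Real.exp (-(3 * L)) := by
    intro x _
    refine (h1 (c / n) n r (K + 1) x hp hp1 hr1 (by omega)).trans ?_
    refine (tail hn1 hc0 hr1 hK2).trans ?_
    exact Real.exp_le_exp.2 (by linarith)
  refine (Finset.sum_le_sum hterm).trans ?_
  rw [Finset.sum_const, Finset.card_univ, Fintype.card_fin, nsmul_eq_mul]
  have e3 : Real.exp (-(3 * L)) = ((n : ℝ) ^ 3)⁻¹ := by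
    rw [Real.exp_neg, ← hexpL, ← Real.exp_nat_mul]
    push_cast
    rfl
  rw [e3]
  have hn1' : (1 : ℝ) ≤ n := by exact_mod_cast hn1
  have h5 : (n : ℝ) * ((n : ℝ) ^ 3)⁻¹ ≤ 1 / n := by
    rw [← div_eq_mul_inv, div_le_div_iff₀ (by positivity) hn0]
    nlinarith [mul_pos hn0 hn0]
  refine h5.trans ?_
  rw [div_le_iff₀ hn0]
  have h6 : 1 / η' ≤ n := hN1.trans (by exact_mod_cast hnN)
  rw [div_le_iff₀ hη'] at h6
  linarith

end Pool.Agent.H396.RL.Up
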